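import Pool.Agent.H22.An2

namespace Pool.Agent.Results.MP_8c4891_lc.Hard

open Pool.Agent.H22.EX

/-- Deciding whether the player to move wins Annihilation on a directed graph (cycles allowed)
is EXPTIME-hard, already for two token types. -/
theorem result : EXPTIMEHardOn TwoTypes AnWin := an_hard

end Pool.Agent.Results.MP_8c4891_lc.Hard
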